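import Mathlib
import Pool.Agent.Lib.MP_07734d_lc.Defs
import Pool.Agent.Lib.MP_07734d_lc.Main

set_option autoImplicit false

/-!
# A Borel filter that is not F-sigma-delta and whose algebra has the Nikodym property

Problem MP_07734d_lc, Q1: there is a Borel filter `F` on the natural numbers which is not an
`F_{σδ}` subset of the Cantor space and such that the Boolean algebra `A_F = F ∪ F^*` has the
Nikodym property.  The filter constructed in the proof is the dual filter of the Fubini product
`Z ⊗ Fin` of the asymptotic density zero ideal with the ideal of finite sets.
-/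

namespace Pool.Agent.Results.MP_07734d_lc.BorelNikodymFilter

open Pool.Agent.Lib.MP_07734d_lc

/-- **Answer to Q1**: there is a Borel filter on `ℕ` which is not an `F_{σδ}` subset of the Cantor
space and whose Boolean algebra `A_F` has the Nikodym property. -/
theorem result : ∃ F : Filter ℕ, IsFree F ∧
    @MeasurableSet (ℕ → Bool) (borel (ℕ → Bool)) (cantorSet F) ∧
    ¬ IsFSigmaDelta (cantorSet F) ∧
    HasNikodymProperty (filterAlgebra F) :=
  ⟨theFilter, theFilter_isFree, theFilter_borel, theFilter_not_fsd, theFilter_nikodym⟩

end Pool.Agent.Results.MP_07734d_lc.BorelNikodymFilter
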